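import Pool.Agent.K4H1.PAC.Sch
import Pool.Agent.K4H1.PAC.Gal

/-!
# A field over which all `𝒪`-acyclic varieties have points and whose absolute Galois group is not procyclic

The field is a pseudo-algebraically closed subfield `K` of `ℂ` in which `ℚ` is relatively
algebraically closed. It is the union of a chain of countable subfields of `ℂ`; in each step the
function field of a geometrically integral affine variety over the field reached so far is embedded
into `ℂ`. The rational numbers remain relatively algebraically closed, so no squarefree integer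
`m > 1` is a square in `K`, and by Kummer theory no finite set generates a dense subgroup of the
absolute Galois group of `K`.
-/

set_option autoImplicit false

namespace Pool.Agent.Results.MP_023059_nt.NotProcyclic

open AlgebraicGeometry CategoryTheory Limits

attribute [local instance] MvPolynomial.gradedAlgebra

/-- The projective space of dimension `n` over the field `K`: the `Proj` of the polynomial ring in
`n + 1` variables with the grading by the degree. -/
noncomputable def projSpace (K : Type) [Field K] (n : ℕ) : Scheme.{0} :=
  Proj (MvPolynomial.homogeneousSubmodule (Fin (n + 1)) K)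

/-- The structure morphism of the projective space. -/
noncomputable def projSpaceMap (K : Type) [Field K] (n : ℕ) : projSpace K n ⟶ Spec (.of K) :=
  Proj.toSpecZero (MvPolynomial.homogeneousSubmodule (Fin (n + 1)) K) ≫
    Spec.map (CommRingCat.ofHom
      (algebraMap K (MvPolynomial.homogeneousSubmodule (Fin (n + 1)) K 0)))

section

variable {K : Type} [Field K] {X : Scheme.{0}}

/-- The `K`-scheme `X` is projective: it is isomorphic to a closed subscheme of a projective space. -/
def IsProjective (f : X ⟶ Spec (.of K)) : Prop :=
  ∃ (n : ℕ) (i : X ⟶ projSpace K n), IsClosedImmersion i ∧ i ≫ projSpaceMap K n = f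

/-- A variety over `K`: a smooth, projective, geometrically integral `K`-scheme. -/
def IsVariety (f : X ⟶ Spec (.of K)) : Prop :=
  Smooth f ∧ IsProjective f ∧ GeometricallyIntegral f

/-- The homomorphism of `K` into the ring of the global functions of the `K`-scheme `X`. -/
noncomputable def scalars (f : X ⟶ Spec (.of K)) : K →+* Γ(X, ⊤) :=
  ((Scheme.ΓSpecIso (.of K)).inv ≫ f.appTop).hom

/-- The dimension of `H⁰(X, 𝒪_X)` over `K`. -/
noncomputable def dimGlobal (f : X ⟶ Spec (.of K)) : ℕ :=
  letI := (scalars f).toAlgebra
  Module.finrank K Γ(X, ⊤)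

/-- The structure sheaf as a sheaf of abelian groups. -/
noncomputable def structureSheaf (X : Scheme.{0}) :
    Sheaf (Opens.grothendieckTopology X) AddCommGrpCat.{0} :=
  (sheafCompose (Opens.grothendieckTopology X)
    (forget₂ CommRingCat RingCat ⋙ forget₂ RingCat AddCommGrpCat)).obj X.sheaf

/-- `X` is `𝒪`-acyclic: `H⁰(X, 𝒪_X)` has dimension one over `K`, and `Hⁱ(X, 𝒪_X) = 0` for all
`i > 0`. -/
def IsAcyclic (f : X ⟶ Spec (.of K)) : Prop :=
  dimGlobal f = 1 ∧ ∀ i : ℕ, 0 < i → Subsingleton (Sheaf.H (structureSheaf X) i)

/-- `X` has a `K`-rational point. -/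
def HasPoint (f : X ⟶ Spec (.of K)) : Prop := ∃ s : Spec (.of K) ⟶ X, s ≫ f = 𝟙 _

end

/-- Property (A): every `𝒪`-acyclic variety over `K` has a `K`-rational point. -/
def PropertyA (K : Type) [Field K] : Prop :=
  ∀ (X : Scheme.{0}) (f : X ⟶ Spec (.of K)), IsVariety f → IsAcyclic f → HasPoint f

/-- The absolute Galois group of `K`, with the Krull topology. -/
abbrev GaloisGroup (K : Type) [Field K] : Type := SeparableClosure K ≃ₐ[K] SeparableClosure K

/-- The topological group `G` is procyclic: some element generates a dense subgroup. -/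
def Procyclic (G : Type) [Group G] [TopologicalSpace G] [IsTopologicalGroup G] : Prop :=
  ∃ g : G, (Subgroup.zpowers g).topologicalClosure = ⊤

/-- The topological group `G` is topologically finitely generated: a finite subset generates a
dense subgroup. -/
def FinitelyGenerated (G : Type) [Group G] [TopologicalSpace G] [IsTopologicalGroup G] : Prop :=
  ∃ S : Set G, S.Finite ∧ (Subgroup.closure S).topologicalClosure = ⊤

theorem procyclic_fg {G : Type} [Group G] [TopologicalSpace G] [IsTopologicalGroup G]
    (h : Procyclic G) : FinitelyGenerated G := by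
  obtain ⟨g, hg⟩ := h
  refine ⟨{g}, Set.finite_singleton g, ?_⟩
  rwa [← Subgroup.zpowers_eq_closure]

theorem not_isSquare_of_squarefree (m : ℕ) (hm : 1 < m) (hsq : Squarefree m) :
    ¬ IsSquare (m : ℚ) := by
  rw [Rat.isSquare_natCast_iff]
  rintro ⟨r, rfl⟩
  have h1 : IsUnit r := hsq r dvd_rfl
  rw [Nat.isUnit_iff] at h1
  subst h1
  omega

/-- **The answer to the question is negative.** There is a field `K` such that every `𝒪`-acyclic
variety over `K` has a `K`-rational point, and whose absolute Galois group is not procyclic; it is
not even topologically finitely generated. Moreover `K` has characteristic zero, it is countable,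
and every geometrically integral scheme locally of finite type over `K` has a `K`-rational point. -/
theorem result : ∃ (K : Type) (_ : Field K),
    (PropertyA K ∧ ¬ Procyclic (GaloisGroup K) ∧ ¬ FinitelyGenerated (GaloisGroup K)) ∧
    CharZero K ∧ Countable K ∧ ∀ (X : Scheme.{0}) (f : X ⟶ Spec (.of K)),
      GeometricallyIntegral f → LocallyOfFiniteType f → HasPoint f := by
  have hC : Uncountable ℂ := by
    rw [← not_countable_iff, ← Set.countable_univ_iff]
    exact not_countable_complex
  obtain ⟨K, hKc, hR, hK⟩ := Pool.Agent.K4H1.PAC.exists_pac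
    ((algebraMap ℚ ℂ).fieldRange) (by
      have : Function.Surjective (fun q : ℚ => (⟨algebraMap ℚ ℂ q, ⟨q, rfl⟩⟩ :
          (algebraMap ℚ ℂ).fieldRange)) := by
        rintro ⟨_, ⟨q, rfl⟩⟩
        exact ⟨q, rfl⟩
      exact this.countable)
  have hpt : ∀ (X : Scheme.{0}) (f : X ⟶ Spec (.of K)),
      GeometricallyIntegral f → LocallyOfFiniteType f → HasPoint f := fun X f _ _ =>
    Pool.Agent.K4H1.PAC.exists_section K hK X f
  have hsq : ∀ m : ℕ, 1 < m → Squarefree m → ¬ IsSquare (m : K) := by
    rintro m hm hmsq ⟨x, hx⟩
    have hx' : (x : ℂ) * x = m := by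
      have h1 := congrArg (algebraMap K ℂ) hx
      rw [map_natCast, map_mul] at h1
      exact h1.symm
    have halg : IsAlgebraic ((algebraMap ℚ ℂ).fieldRange) (x : ℂ) := by
      refine ⟨Polynomial.X ^ 2 - Polynomial.C (m : (algebraMap ℚ ℂ).fieldRange), ?_, ?_⟩
      · exact Polynomial.X_pow_sub_C_ne_zero (by norm_num) _
      · rw [map_sub, Polynomial.aeval_C, map_pow, Polynomial.aeval_X, pow_two, hx']
        simp
    obtain ⟨q, hq⟩ := hR.2 _ x.2 halg
    apply not_isSquare_of_squarefree m hm hmsq
    refine ⟨q, ?_⟩
    apply (algebraMap ℚ ℂ).injective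
    rw [map_mul, hq, hx']
    simp
  have hfg : ¬ FinitelyGenerated (GaloisGroup K) := by
    rintro ⟨S, hS, h⟩
    exact Pool.Agent.K4H1.PAC.not_fg K hsq S hS h
  refine ⟨K, inferInstance, ⟨?_, fun h => hfg (procyclic_fg h), hfg⟩, inferInstance, hKc, hpt⟩
  intro X f hf _
  obtain ⟨h1, -, h3⟩ := hf
  exact hpt X f h3 inferInstance

end Pool.Agent.Results.MP_023059_nt.NotProcyclic
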